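import Pool.Agent.helper60.AVK.SpecD

/-! # Row avk:IVD (MP_24e9c4_gt): the hyperbolic volume is invariant under diagonal matrices -/

namespace Pool.Agent.helper60.AVK

open MeasureTheory Matrix

/-- The inclusion of upper half-space. -/
def IVD_i (p : H3) : ℂ × ℝ := (p.z, p.t)

theorem IVD_emb : MeasurableEmbedding IVD_i := by
  have hm : MeasurableSet {p : ℂ × ℝ | 0 < p.2} := measurableSet_lt measurable_const measurable_snd
  exact MeasurableEmbedding.subtype_coe hm

/-- The density. -/
noncomputable def IVD_rho (q : ℂ × ℝ) : ENNReal := ENNReal.ofReal (1 / q.2 ^ 3)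

theorem IVD_rho_meas : Measurable IVD_rho := by
  unfold IVD_rho
  exact ENNReal.measurable_ofReal.comp (measurable_const.div (measurable_snd.pow_const 3))

theorem IVD_vol (s : Set H3) (hs : MeasurableSet s) :
    volume s = ∫⁻ q in IVD_i '' s, IVD_rho q := by
  have hv : (volume : Measure H3) = ((volume : Measure (ℂ × ℝ)).comap IVD_i).withDensity
      (fun p => IVD_rho (IVD_i p)) := rfl
  have : MeasurePreserving IVD_i ((volume : Measure (ℂ × ℝ)).comap IVD_i)
      (volume.restrict (Set.range IVD_i)) :=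
    ⟨IVD_emb.measurable, by rw [IVD_emb.map_comap]⟩
  rw [hv, withDensity_apply _ hs,
    ← Set.inter_eq_self_of_subset_left (Set.image_subset_range IVD_i s),
    ← Measure.restrict_restrict' IVD_emb.measurableSet_range, ← this.setLIntegral_comp_emb IVD_emb]

theorem IVD_map (l : ℂ) (hl : l ≠ 0) :
    Measure.map (fun q : ℂ × ℝ => (l ^ 2 * q.1, Complex.normSq l * q.2)) (volume : Measure (ℂ × ℝ)) =
      ENNReal.ofReal (1 / (Complex.normSq l) ^ 3) • (volume : Measure (ℂ × ℝ)) := by
  have hn : 0 < Complex.normSq l := Complex.normSq_pos.2 hl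
  have h1 : Measure.map (fun z : ℂ => l ^ 2 * z) (volume : Measure ℂ) =
      ENNReal.ofReal (1 / (Complex.normSq l) ^ 2) • (volume : Measure ℂ) := by
    have hd : LinearMap.det (LinearMap.mul ℝ ℂ (l ^ 2)) = (Complex.normSq l) ^ 2 := by
      have := Algebra.norm_complex_apply (l ^ 2)
      rw [Algebra.norm_apply] at this
      rw [← map_pow]
      exact this
    have hd0 : LinearMap.det (LinearMap.mul ℝ ℂ (l ^ 2)) ≠ 0 := by
      rw [hd]
      positivity
    have := Measure.map_linearMap_addHaar_eq_smul_addHaar (μ := (volume : Measure ℂ)) hd0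
    rw [hd] at this
    have e : (⇑(LinearMap.mul ℝ ℂ (l ^ 2)) : ℂ → ℂ) = fun z => l ^ 2 * z := by
      funext z
      simp
    rw [e] at this
    rw [this, abs_of_pos (by positivity), one_div]
  have h2 : Measure.map (fun x : ℝ => Complex.normSq l * x) (volume : Measure ℝ) =
      ENNReal.ofReal (1 / Complex.normSq l) • (volume : Measure ℝ) := by
    rw [Real.map_volume_mul_left hn.ne', abs_of_pos (by positivity), one_div]
  have h3 : (fun q : ℂ × ℝ => (l ^ 2 * q.1, Complex.normSq l * q.2)) =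
      Prod.map (fun z : ℂ => l ^ 2 * z) (fun x : ℝ => Complex.normSq l * x) := rfl
  rw [h3, Measure.volume_eq_prod, ← Measure.map_prod_map _ _ (measurable_const_mul _) (measurable_const_mul _),
    h1, h2]
  have hS1 : SigmaFinite (ENNReal.ofReal (1 / Complex.normSq l) • (volume : Measure ℝ)) := by
    rw [← h2]
    have : (fun x : ℝ => Complex.normSq l * x) = ⇑(MeasurableEquiv.mulLeft₀ (Complex.normSq l) hn.ne') := rfl
    rw [this]
    exact MeasurableEquiv.sigmaFinite_map _
  rw [Measure.prod_smul_left]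
  rw [Measure.prod_smul_right, smul_smul, ← ENNReal.ofReal_mul (by positivity)]
  congr 2
  field_simp

theorem IVD_act (l : ℂ) (hl : l ≠ 0) (p : H3) :
    IVD_i (Dm l hl • p) = (l ^ 2 * (IVD_i p).1, Complex.normSq l * (IVD_i p).2) := by
  have hn : 0 < Complex.normSq l := Complex.normSq_pos.2 hl
  have hnc : ((Complex.normSq l : ℝ) : ℂ) ≠ 0 := by exact_mod_cast hn.ne'
  have e00 : (Dm l hl) 0 0 = l := rfl
  have e01 : (Dm l hl) 0 1 = 0 := rfl
  have e10 : (Dm l hl) 1 0 = 0 := rfl
  have e11 : (Dm l hl) 1 1 = l⁻¹ := rfl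
  have hden : den (Dm l hl) p = (Complex.normSq l)⁻¹ := by
    unfold den
    rw [e10, e11]
    simp
  have hc : (starRingEnd ℂ) l ≠ 0 := by
    intro h
    exact hl (by simpa using h)
  rw [smul_def]
  apply Prod.ext
  · change (act (Dm l hl) p).z = l ^ 2 * p.z
    have hz : (act (Dm l hl) p).z = (((Dm l hl) 0 0 * p.z + (Dm l hl) 0 1) *
      (starRingEnd ℂ) ((Dm l hl) 1 0 * p.z + (Dm l hl) 1 1) +
      (Dm l hl) 0 0 * (starRingEnd ℂ) ((Dm l hl) 1 0) * (p.t : ℂ) ^ 2) / (den (Dm l hl) p : ℂ) := rfl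
    rw [hz, hden, e00, e01, e10, e11]
    have : ((Complex.normSq l : ℝ) : ℂ) = l * (starRingEnd ℂ) l := (Complex.mul_conj l).symm
    simp only [Complex.ofReal_inv, map_inv₀, map_zero, zero_mul, zero_add, mul_zero, add_zero]
    rw [this]
    field_simp
  · change (act (Dm l hl) p).t = Complex.normSq l * p.t
    have ht : (act (Dm l hl) p).t = p.t / den (Dm l hl) p := rfl
    rw [ht, hden]
    field_simp

theorem IVD : IVD_stmt := by
  intro l hl s hs
  have hn : 0 < Complex.normSq l := Complex.normSq_pos.2 hl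
  set f : ℂ × ℝ → ℂ × ℝ := fun q => (l ^ 2 * q.1, Complex.normSq l * q.2) with hf
  have hfm : Measurable f := by
    exact (measurable_const.mul measurable_fst).prodMk (measurable_const.mul measurable_snd)
  have hpre : IVD_i '' ((fun p : H3 => Dm l hl • p) ⁻¹' s) = f ⁻¹' (IVD_i '' s) := by
    ext q
    constructor
    · rintro ⟨p, hp, rfl⟩
      exact ⟨Dm l hl • p, hp, IVD_act l hl p⟩
    · rintro ⟨p', hp', he⟩
      have hq2 : 0 < q.2 := by
        have h1 : p'.t = Complex.normSq l * q.2 := congrArg Prod.snd he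
        have h2 := p'.t_pos
        rw [h1] at h2
        exact pos_of_mul_pos_right h2 hn.le
      refine ⟨H3.of q.1 q.2 hq2, ?_, rfl⟩
      change Dm l hl • H3.of q.1 q.2 hq2 ∈ s
      have : Dm l hl • H3.of q.1 q.2 hq2 = p' := by
        apply IVD_emb.injective
        rw [IVD_act, he]
        rfl
      rw [this]
      exact hp'
  have hs' : MeasurableSet ((fun p : H3 => Dm l hl • p) ⁻¹' s) := by
    have hA : MeasurableSet (IVD_i '' s) := IVD_emb.measurableSet_image.2 hs
    have : (fun p : H3 => Dm l hl • p) ⁻¹' s = IVD_i ⁻¹' (f ⁻¹' (IVD_i '' s)) := by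
      rw [← hpre, Set.preimage_image_eq _ IVD_emb.injective]
    rw [this]
    exact IVD_emb.measurable (hfm hA)
  rw [IVD_vol _ hs', IVD_vol _ hs, hpre]
  have hA : MeasurableSet (IVD_i '' s) := IVD_emb.measurableSet_image.2 hs
  have hrho : ∀ q : ℂ × ℝ, IVD_rho q = ENNReal.ofReal ((Complex.normSq l) ^ 3) * IVD_rho (f q) := by
    intro q
    unfold IVD_rho
    rw [← ENNReal.ofReal_mul (by positivity)]
    congr 1
    simp only [hf]
    by_cases hq : q.2 = 0
    · rw [hq]
      simp
    · field_simp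
  calc ∫⁻ q in f ⁻¹' (IVD_i '' s), IVD_rho q
      = ∫⁻ q in f ⁻¹' (IVD_i '' s), ENNReal.ofReal ((Complex.normSq l) ^ 3) * IVD_rho (f q) := by
        simp_rw [← hrho]
    _ = ENNReal.ofReal ((Complex.normSq l) ^ 3) * ∫⁻ q in f ⁻¹' (IVD_i '' s), IVD_rho (f q) := by
        exact lintegral_const_mul _ (IVD_rho_meas.comp hfm)
    _ = ENNReal.ofReal ((Complex.normSq l) ^ 3) *
        ∫⁻ q in IVD_i '' s, IVD_rho q ∂(Measure.map f volume) := by
        rw [setLIntegral_map hA IVD_rho_meas hfm]
    _ = ENNReal.ofReal ((Complex.normSq l) ^ 3) *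
        (ENNReal.ofReal (1 / (Complex.normSq l) ^ 3) * ∫⁻ q in IVD_i '' s, IVD_rho q) := by
        rw [hf, IVD_map l hl, Measure.restrict_smul, lintegral_smul_measure, smul_eq_mul]
    _ = ∫⁻ q in IVD_i '' s, IVD_rho q := by
        rw [← mul_assoc, ← ENNReal.ofReal_mul (by positivity)]
        have : Complex.normSq l ^ 3 * (1 / Complex.normSq l ^ 3) = 1 := by
          field_simp
        rw [this]
        simp

end Pool.Agent.helper60.AVK
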